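import Mathlib

/-!
Covering inequalities for finite sets of points on the circle.
-/

set_option autoImplicit false

namespace Pool.Helper56.Rot

open MeasureTheory

/-- A point at forward distance in `[a, b]` before `p` lies in a closed ball. -/
theorem mem_ball {p z a b : ℝ} (h1 : a ≤ Int.fract (p - z)) (h2 : Int.fract (p - z) ≤ b) :
    (z : UnitAddCircle) ∈ Metric.closedBall ((p - (a + b) / 2 : ℝ) : UnitAddCircle)
      ((b - a) / 2) := by
  rw [Metric.mem_closedBall, dist_eq_norm]
  have h3 : ((z : ℝ) : UnitAddCircle) - ((p - (a + b) / 2 : ℝ) : UnitAddCircle) =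
      (((a + b) / 2 - Int.fract (p - z) : ℝ) : UnitAddCircle) := by
    rw [← AddCircle.coe_sub]
    have h4 : z - (p - (a + b) / 2) = ((a + b) / 2 - Int.fract (p - z)) + -(⌊p - z⌋ : ℝ) := by
      have := Int.floor_add_fract (p - z)
      linarith
    rw [h4, AddCircle.coe_add]
    have h5 : ((-(⌊p - z⌋ : ℝ) : ℝ) : UnitAddCircle) = 0 := by
      rw [AddCircle.coe_neg, neg_eq_zero]
      exact (AddCircle.coe_eq_zero_iff (p := (1 : ℝ))).2 ⟨⌊p - z⌋, by simp⟩
    rw [h5, add_zero]
  rw [h3]
  rw [UnitAddCircle.norm_eq]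
  have h6 := round_le ((a + b) / 2 - Int.fract (p - z)) 0
  refine le_trans h6 ?_
  rw [Int.cast_zero, sub_zero, abs_le]
  constructor <;> linarith

theorem vol_ball {x : UnitAddCircle} {a b : ℝ} :
    volume (Metric.closedBall x ((b - a) / 2)) ≤ ENNReal.ofReal (b - a) := by
  rw [AddCircle.volume_closedBall]
  apply ENNReal.ofReal_le_ofReal
  refine le_trans (min_le_right _ _) ?_
  linarith

/-- If every point has a point of `I` within forward distance `δ` and a point of `J ⊇ I` within
forward distance `δ' ≤ δ`, then `1 ≤ |I| δ' + |J \ I| (δ - δ')`. -/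
theorem cover_two {κ : Type*} [DecidableEq κ] (p : κ → ℝ) (I J : Finset κ)
    (hI : I.Nonempty) {δ δ' : ℝ}
    (h0 : 0 ≤ δ') (hδ : δ' ≤ δ) (hδ1 : δ < 1)
    (h1 : ∀ z : ℝ, ∃ i ∈ I, Int.fract (p i - z) ≤ δ)
    (h2 : ∀ z : ℝ, ∃ i ∈ J, Int.fract (p i - z) ≤ δ') :
    1 ≤ I.card * δ' + (J \ I).card * (δ - δ') := by
  -- the next point of `I`
  have hnext : ∀ z : ℝ, ∃ i ∈ I, ∀ j ∈ I, Int.fract (p i - z) ≤ Int.fract (p j - z) := by
    intro z
    exact I.exists_min_image (fun i => Int.fract (p i - z)) hI
  choose nx hnx1 hnx2 using hnext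
  set S : Finset κ := (J \ I).image (fun y => nx (p y)) with hS
  have hcov : (Set.univ : Set UnitAddCircle) ⊆
      (⋃ i ∈ I, Metric.closedBall ((p i - (0 + δ') / 2 : ℝ) : UnitAddCircle) ((δ' - 0) / 2)) ∪
      (⋃ i ∈ S, Metric.closedBall ((p i - (δ' + δ) / 2 : ℝ) : UnitAddCircle) ((δ - δ') / 2)) := by
    intro x _
    induction x using QuotientAddGroup.induction_on with
    | H z =>
      set d := Int.fract (p (nx z) - z) with hd
      have hd1 : d ≤ δ := by
        obtain ⟨i, hi, hi'⟩ := h1 z
        exact (hnx2 z i hi).trans hi'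
      by_cases hdd : d ≤ δ'
      · left
        simp only [Set.mem_iUnion]
        exact ⟨nx z, hnx1 z, mem_ball (Int.fract_nonneg _) hdd⟩
      · right
        push Not at hdd
        obtain ⟨y, hy, hy'⟩ := h2 z
        have hyI : y ∉ I := by
          intro hyI
          have := hnx2 z y hyI
          linarith
        set e := Int.fract (p y - z) with he
        set i := nx (p y) with hi
        have hiS : i ∈ S := by
          rw [hS, Finset.mem_image]
          exact ⟨y, Finset.mem_sdiff.2 ⟨hy, hyI⟩, rfl⟩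
        have he0 : 0 ≤ e := Int.fract_nonneg _
        -- forward distance from `p y` to `p (nx z)`
        have h3 : Int.fract (p (nx z) - p y) = d - e := by
          rw [Int.fract_eq_iff]
          refine ⟨by linarith, by linarith, ⌊p (nx z) - z⌋ - ⌊p y - z⌋, ?_⟩
          have e1 := Int.floor_add_fract (p (nx z) - z)
          have e2 := Int.floor_add_fract (p y - z)
          push_cast
          linarith
        have h4 : Int.fract (p i - p y) ≤ d - e := by
          rw [← h3]
          exact hnx2 (p y) (nx z) (hnx1 z)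
        have h5 : Int.fract (p i - z) = Int.fract (p i - p y) + e := by
          rw [Int.fract_eq_iff]
          have h6 := Int.fract_nonneg (p i - p y)
          refine ⟨by linarith, by linarith, ⌊p i - p y⌋ + ⌊p y - z⌋, ?_⟩
          have e1 := Int.floor_add_fract (p i - p y)
          have e2 := Int.floor_add_fract (p y - z)
          push_cast
          linarith
        have h7 : d ≤ Int.fract (p i - z) := hnx2 z i (hnx1 _)
        simp only [Set.mem_iUnion]
        exact ⟨i, hiS, mem_ball (by linarith) (by linarith)⟩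
  have hvol : (1 : ENNReal) ≤ ENNReal.ofReal (I.card * δ' + (J \ I).card * (δ - δ')) := by
    have huniv : volume (Set.univ : Set UnitAddCircle) = 1 := by
      rw [AddCircle.measure_univ]; simp
    rw [← huniv]
    refine le_trans (measure_mono hcov) (le_trans (measure_union_le _ _) ?_)
    have a1 : volume (⋃ i ∈ I, Metric.closedBall ((p i - (0 + δ') / 2 : ℝ) : UnitAddCircle)
        ((δ' - 0) / 2)) ≤ ENNReal.ofReal (I.card * δ') := by
      refine le_trans (measure_biUnion_finset_le _ _) ?_
      refine le_trans (Finset.sum_le_sum (fun i _ => vol_ball)) ?_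
      rw [Finset.sum_const, nsmul_eq_mul, sub_zero, ENNReal.ofReal_mul (by positivity)]
      simp
    have a2 : volume (⋃ i ∈ S, Metric.closedBall ((p i - (δ' + δ) / 2 : ℝ) : UnitAddCircle)
        ((δ - δ') / 2)) ≤ ENNReal.ofReal ((J \ I).card * (δ - δ')) := by
      refine le_trans (measure_biUnion_finset_le _ _) ?_
      refine le_trans (Finset.sum_le_sum (fun i _ => vol_ball)) ?_
      rw [Finset.sum_const, nsmul_eq_mul, ENNReal.ofReal_mul (by positivity)]
      have h8 : S.card ≤ (J \ I).card := Finset.card_image_le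
      have h9 : ((S.card : ℕ) : ENNReal) ≤ ENNReal.ofReal ((J \ I).card : ℝ) := by
        rw [ENNReal.ofReal_natCast]
        exact_mod_cast h8
      exact mul_le_mul_left h9 _
    refine le_trans (add_le_add a1 a2) ?_
    rw [← ENNReal.ofReal_add (by positivity) (by
      apply mul_nonneg (by positivity); linarith)]
  rw [← ENNReal.ofReal_one] at hvol
  exact (ENNReal.ofReal_le_ofReal_iff (by
    have : 0 ≤ ((J \ I).card : ℝ) * (δ - δ') := mul_nonneg (by positivity) (by linarith)
    positivity)).1 hvol

/-- The case of one set of points. -/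
theorem cover_one {κ : Type*} [DecidableEq κ] (p : κ → ℝ) (I : Finset κ) {δ : ℝ}
    (hI : I.Nonempty) (h0 : 0 ≤ δ) (hδ1 : δ < 1)
    (h1 : ∀ z : ℝ, ∃ i ∈ I, Int.fract (p i - z) ≤ δ) :
    1 ≤ I.card * δ := by
  have := cover_two p I I hI h0 le_rfl hδ1 h1 h1
  simpa using this

end Pool.Helper56.Rot
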