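import Pool.Agent.Helper56.Rot.Window
import Pool.Agent.Helper28.IET3.Codes

/-!
Exchanges whose permutation is a rotation.
-/

set_option autoImplicit false

namespace Pool.Helper56.Rot

open Pool.Agent.Helper28.IET3 Pool.Agent.Helper44.IET Finset

/-- the permutation of the exchange is a rotation of the `d` intervals -/
def IsRotation {d : ℕ} (E : Exchange d) : Prop :=
  ∃ r : ℕ, ∀ i : Fin d, (E.perm i : ℕ) = ((i : ℕ) + r) % d

section

variable {d : ℕ} (E : Exchange d)

/-- the `m`-th cut point -/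
noncomputable def cut (m : ℕ) : ℝ := ∑ i ∈ univ.filter (fun i : Fin d => (i : ℕ) < m), E.len i

theorem left_eq (j : Fin d) : E.left j = cut E j := by
  unfold Exchange.left cut
  apply Finset.sum_congr _ (fun _ _ => rfl)
  ext i
  simp only [mem_filter, mem_univ, true_and]
  exact Iff.rfl

theorem cut_zero : cut E 0 = 0 := by
  unfold cut
  simp

theorem cut_last : cut E d = 1 := by
  unfold cut
  rw [← E.len_sum]
  apply Finset.sum_congr _ (fun _ _ => rfl)
  ext i
  simp

theorem cut_succ (j : Fin d) : cut E (j + 1) = cut E j + E.len j := by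
  unfold cut
  have h : univ.filter (fun i : Fin d => (i : ℕ) < (j : ℕ) + 1) =
      insert j (univ.filter (fun i : Fin d => (i : ℕ) < j)) := by
    ext i
    simp only [mem_filter, mem_univ, true_and, mem_insert, Fin.ext_iff]
    omega
  rw [h, sum_insert (by simp), add_comm]

theorem cut_mono {a b : ℕ} (h : a ≤ b) : cut E a ≤ cut E b := by
  unfold cut
  apply sum_le_sum_of_subset_of_nonneg
  · intro i hi
    simp only [mem_filter, mem_univ, true_and] at hi ⊢
    omega
  · intro i _ _
    exact (E.len_pos i).le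

theorem cut_lt {a b : ℕ} (h : a < b) (hb : b ≤ d) : cut E a < cut E b := by
  have h1 := cut_succ E ⟨a, by omega⟩
  have h2 := E.len_pos ⟨a, by omega⟩
  have h3 := cut_mono E (show a + 1 ≤ b by omega)
  simp only at h1
  linarith

theorem exists_interval (x : ℝ) (h0 : 0 ≤ x) (h1 : x < 1) (hd : 0 < d) :
    ∃ j, x ∈ E.interval j := by
  classical
  set P : ℕ → Prop := fun i => i < d ∧ cut E i ≤ x with hP
  have hP0 : P 0 := ⟨hd, by rw [cut_zero]; exact h0⟩
  set m := Nat.findGreatest P d with hm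
  have hPm : P m := Nat.findGreatest_spec (Nat.zero_le d) hP0
  refine ⟨⟨m, hPm.1⟩, ?_⟩
  unfold Exchange.interval
  rw [left_eq, ← cut_succ]
  refine ⟨hPm.2, ?_⟩
  simp only
  have h2 : ¬ P (m + 1) :=
    Nat.findGreatest_is_greatest (n := d) (Nat.lt_succ_self m) (by have := hPm.1; omega)
  rcases Nat.lt_or_ge (m + 1) d with h3 | h3
  · have h4 : ¬ cut E (m + 1) ≤ x := fun h => h2 ⟨h3, h⟩
    push Not at h4
    exact h4
  · have h4 : m + 1 = d := by have := hPm.1; omega
    rw [h4, cut_last]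
    exact h1

theorem mem_interval (x : ℝ) (j : Fin d) : x ∈ E.interval j ↔ cut E j ≤ x ∧ x < cut E (j + 1) := by
  unfold Exchange.interval
  rw [left_eq, ← cut_succ]
  exact Iff.rfl

variable {r : ℕ} (hr0 : 0 < r) (hrd : r < d)
  (hE : ∀ i : Fin d, (E.perm i : ℕ) = ((i : ℕ) + r) % d)

include hr0 hrd hE

theorem perm_val (i : Fin d) :
    (E.perm i : ℕ) = if (i : ℕ) < d - r then (i : ℕ) + r else (i : ℕ) + r - d := by
  rw [hE]
  have := i.2
  split_ifs with h
  · exact Nat.mod_eq_of_lt (by omega)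
  · rw [Nat.mod_eq_sub_mod (by omega), Nat.mod_eq_of_lt (by omega)]

theorem imageLeft_lt (j : Fin d) (hj : (j : ℕ) < d - r) :
    E.imageLeft j = E.left j + (1 - cut E (d - r)) := by
  have h1 : (univ.filter (fun i : Fin d => E.perm i < E.perm j)) =
      univ.filter (fun i : Fin d => (i : ℕ) < j) ∪
        univ.filter (fun i : Fin d => ¬ (i : ℕ) < d - r) := by
    ext i
    have a := perm_val E hr0 hrd hE i
    have b := perm_val E hr0 hrd hE j
    rw [if_pos hj] at b
    simp only [mem_filter, mem_univ, true_and, mem_union, Fin.lt_def]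
    have := i.2
    split_ifs at a with h <;> omega
  have h2 : ∑ i ∈ univ.filter (fun i : Fin d => ¬ (i : ℕ) < d - r), E.len i =
      1 - cut E (d - r) := by
    have h3 := sum_filter_add_sum_filter_not (univ : Finset (Fin d))
      (fun i : Fin d => (i : ℕ) < d - r) E.len
    rw [E.len_sum] at h3
    unfold cut
    linarith
  unfold Exchange.imageLeft
  rw [h1, sum_union, h2, left_eq]
  · rfl
  · rw [disjoint_filter]
    intro i _ h3 h4
    omega

theorem imageLeft_ge (j : Fin d) (hj : d - r ≤ (j : ℕ)) :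
    E.imageLeft j = E.left j + (1 - cut E (d - r)) - 1 := by
  have h1 : (univ.filter (fun i : Fin d => (i : ℕ) < j)) =
      univ.filter (fun i : Fin d => (i : ℕ) < d - r) ∪
        univ.filter (fun i : Fin d => E.perm i < E.perm j) := by
    ext i
    have a := perm_val E hr0 hrd hE i
    have b := perm_val E hr0 hrd hE j
    rw [if_neg (by omega)] at b
    simp only [mem_filter, mem_univ, true_and, mem_union, Fin.lt_def]
    have := i.2
    have := j.2
    split_ifs at a with h <;> omega
  have h2 : cut E j = cut E (d - r) + E.imageLeft j := by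
    unfold cut Exchange.imageLeft
    rw [h1, sum_union]
    rw [disjoint_filter]
    intro i _ h3 h4
    have a := perm_val E hr0 hrd hE i
    have b := perm_val E hr0 hrd hE j
    rw [if_pos h3] at a
    rw [if_neg (by omega)] at b
    rw [Fin.lt_def] at h4
    have := j.2
    omega
  rw [left_eq, h2]
  ring

theorem T_eq (x : ℝ) (h0 : 0 ≤ x) (h1 : x < 1) :
    E.T x = Int.fract (x + (1 - cut E (d - r))) := by
  have hc0 : 0 < cut E (d - r) := by
    have := cut_lt E (show 0 < d - r by omega) (by omega)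
    rwa [cut_zero] at this
  have hc1 : cut E (d - r) < 1 := by
    have := cut_lt E (show d - r < d by omega) le_rfl
    rwa [cut_last] at this
  obtain ⟨j, hj⟩ := exists_interval E x h0 h1 (by omega)
  rw [E.T_of_mem hj]
  rw [mem_interval] at hj
  rcases Nat.lt_or_ge (j : ℕ) (d - r) with h | h
  · rw [imageLeft_lt E hr0 hrd hE j h]
    have h2 : cut E (j + 1) ≤ cut E (d - r) := cut_mono E (by omega)
    rw [Int.fract_eq_self.mpr ⟨by linarith, by linarith [hj.2]⟩]
    ring
  · rw [imageLeft_ge E hr0 hrd hE j h]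
    have h2 : cut E (d - r) ≤ cut E j := cut_mono E h
    have h3 : Int.fract (x + (1 - cut E (d - r))) = x + (1 - cut E (d - r)) - 1 := by
      rw [Int.fract_eq_iff]
      refine ⟨by linarith [hj.1], by linarith, 1, ?_⟩
      push_cast; ring
    rw [h3]
    ring

theorem iter_eq (x : ℝ) (h0 : 0 ≤ x) (h1 : x < 1) (n : ℕ) :
    E.T^[n] x = Int.fract (x + n * (1 - cut E (d - r))) := by
  induction n with
  | zero => simp [Int.fract_eq_self.mpr ⟨h0, h1⟩]
  | succ n ih =>
    rw [Function.iterate_succ_apply', ih,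
      T_eq E hr0 hrd hE _ (Int.fract_nonneg _) (Int.fract_lt_one _)]
    have h2 : Int.fract (x + n * (1 - cut E (d - r))) =
      x + n * (1 - cut E (d - r)) - ⌊x + n * (1 - cut E (d - r))⌋ := rfl
    rw [h2]
    have h3 : x + n * (1 - cut E (d - r)) - ⌊x + n * (1 - cut E (d - r))⌋ + (1 - cut E (d - r)) =
        x + ((n + 1 : ℕ) : ℝ) * (1 - cut E (d - r)) - (⌊x + n * (1 - cut E (d - r))⌋ : ℤ) := by
      push_cast; ring
    rw [h3, Int.fract_sub_intCast]

theorem irr (hK : E.Keane) : Irrational (1 - cut E (d - r)) := by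
  set α := 1 - cut E (d - r) with hα
  set a : Fin d := ⟨d - r, by omega⟩ with ha
  have ha0 : 0 < (a : ℕ) := by rw [ha]; simp only; omega
  have hc0 : 0 ≤ cut E (d - r) := by
    have := cut_mono E (Nat.zero_le (d - r))
    rwa [cut_zero] at this
  have hc1 : cut E (d - r) < 1 := by
    have := cut_lt E (show d - r < d by omega) le_rfl
    rwa [cut_last] at this
  have hla : E.left a = 1 - α := by rw [left_eq, hα]; simp only [ha]; ring
  have hit0 : ∀ n : ℕ, E.T^[n + 1] (E.left a) = Int.fract (n * α) := by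
    intro n
    rw [hla, iter_eq E hr0 hrd hE (1 - α) (by linarith) (by linarith)]
    have : 1 - α + ((n + 1 : ℕ) : ℝ) * (1 - cut E (d - r)) = n * α + ((1 : ℤ) : ℝ) := by
      rw [← hα]; push_cast; ring
    rw [this, Int.fract_add_intCast]
  rw [irrational_iff_ne_rational]
  intro s t ht heq
  have h1 : E.T^[t.natAbs + 1] (E.left a) = E.T^[0 + 1] (E.left a) := by
    rw [hit0, hit0]
    have ht' : (t : ℝ) ≠ 0 := by exact_mod_cast ht
    rcases Int.natAbs_eq t with h2 | h2
    · have h3 : ((t.natAbs : ℕ) : ℝ) = (t : ℝ) := by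
        rw [← Int.cast_natCast (R := ℝ) t.natAbs, ← h2]
      rw [h3, heq]
      have h4 : (t : ℝ) * (s / t) = (s : ℤ) := by field_simp
      rw [h4, Int.fract_intCast]; simp
    · have h3 : ((t.natAbs : ℕ) : ℝ) = -(t : ℝ) := by
        have h5 : ((t.natAbs : ℕ) : ℤ) = -t := by omega
        rw [← Int.cast_natCast (R := ℝ) t.natAbs, h5]; push_cast; rfl
      rw [h3, heq]
      have h4 : -(t : ℝ) * (s / t) = ((-s : ℤ) : ℝ) := by push_cast; field_simp
      rw [h4, Int.fract_intCast]; simp
  have h2 := (hK a a ha0 ha0 _ _ h1).2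
  have h3 : t.natAbs ≠ 0 := Int.natAbs_ne_zero.mpr ht
  omega

omit hr0 hrd hE in
/-- Points whose window meets no translate of a cut point have the same letter. -/
theorem letter (y w : ℝ) (hw : 0 ≤ w) (h : ∀ j : Fin d, ∀ l : ℤ, cut E j + l ∉ Set.Icc y (y + w))
    (hd : 0 < d) {a b : Fin d} (ha : Int.fract y ∈ E.interval a)
    (hb : Int.fract (y + w) ∈ E.interval b) : a = b := by
  have h1 : ⌊y + w⌋ = ⌊y⌋ := by
    rw [Int.floor_eq_iff]
    refine ⟨by have := Int.floor_le y; linarith, ?_⟩
    by_contra hcon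
    push Not at hcon
    apply h ⟨0, hd⟩ (⌊y⌋ + 1)
    simp only [cut_zero]
    push_cast
    exact ⟨by linarith [(Int.lt_floor_add_one y).le], by linarith⟩
  have e1 : Int.fract y = y - ⌊y⌋ := rfl
  have e2 : Int.fract (y + w) = y + w - ⌊y⌋ := by rw [Int.fract, h1]
  rw [e1, mem_interval] at ha
  rw [e2, mem_interval] at hb
  have key : ∀ j : Fin d, cut E j ≤ y + w - ⌊y⌋ → cut E j < y - ⌊y⌋ := by
    intro j hj
    by_contra hcon
    push Not at hcon
    exact h j ⌊y⌋ ⟨by linarith, by linarith⟩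
  have hb' := key b hb.1
  rcases lt_trichotomy a b with hab | hab | hab
  · have := cut_mono E (show (a : ℕ) + 1 ≤ b from hab)
    linarith [ha.2]
  · exact hab
  · have := cut_mono E (show (b : ℕ) + 1 ≤ a from hab)
    linarith [hb.2, ha.1]

/-- **Lower bound.** -/
theorem lower (hK : E.Keane) (u : ℕ → Fin d) (hu : E.IsCoding u) :
    ((1 + ph ^ 2 / ((d : ℝ) - 1) : ℝ) : EReal) ≤ critExp u ∧
      ((1 + ph ^ 2 / ((d : ℝ) - 1) : ℝ) : EReal) ≤ asympCritExp u := by
  have hαi := irr E hr0 hrd hE hK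
  set α := 1 - cut E (d - r) with hα
  obtain ⟨x, ⟨hx0, hx1⟩, hcod⟩ := hu
  set j0 : Fin d := ⟨d - r, by omega⟩ with hj0
  -- the marks
  let ι := {j : Fin d // j ≠ j0}
  have hcard : Fintype.card ι = d - 1 := by
    rw [Fintype.card_subtype_compl, Fintype.card_fin]
    simp
  have : Nonempty ι := by
    rw [← Fintype.card_pos_iff, hcard]; omega
  apply crit_of_runs
  intro ε hε n
  obtain ⟨k, hk, M, hM, z, hz⟩ := free_windows α hαi (fun j : ι => cut E (j : Fin d)) (ε / 2)
    (by positivity) (n + 2 + ⌈2 / ε⌉₊)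
  -- the denominator
  obtain ⟨q, hq⟩ := Int.eq_ofNat_of_zero_le (seq α hαi (k + 1)).hq
  have hqr : Qs α hαi (k + 1) = q := by unfold Qs; rw [hq]; push_cast; rfl
  have hqk : (k : ℝ) ≤ q := by rw [← hqr]; exact Qs_ge α hαi k
  have hqk' : k ≤ q := by exact_mod_cast hqk
  have hceil := Nat.le_ceil (2 / ε)
  have hqe : 2 / ε ≤ q := by
    refine le_trans hceil (le_trans ?_ hqk)
    exact_mod_cast (by omega : ⌈2 / ε⌉₊ ≤ k)
  rw [div_le_iff₀ hε] at hqe
  set p := (seq α hαi (k + 1)).p with hp
  have hxe : (seq α hαi (k + 1)).x = (p : ℝ) - q * α := by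
    unfold Pair.x; rw [hq]; push_cast; rfl
  have hX : Xs α hαi (k + 1) = |(p : ℝ) - q * α| := by unfold Xs; rw [hxe]
  have hne : (p : ℝ) - q * α ≠ 0 := by rw [← hxe]; exact (seq α hαi (k + 1)).x_ne
  set w := |(p : ℝ) - q * α| with hw
  have hw0 : 0 ≤ w := abs_nonneg _
  have hw1 : w < 1 := by rw [← hX]; exact Xs_lt_one α hαi k
  rw [hX] at hz
  rw [hqr, hcard] at hM
  obtain ⟨i0, hi0, hrun⟩ := orbit_free α hαi (fun j : ι => cut E (j : Fin d)) w z hw0 hw1 M hz x q
  -- all cut points are avoided at all but the last time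
  have hall : ∀ h, h + 1 < M → ∀ j : Fin d, ∀ l : ℤ,
      cut E j + l ∉ Set.Icc (x + ((i0 + h : ℕ) : ℝ) * α) (x + ((i0 + h : ℕ) : ℝ) * α + w) := by
    intro h hh j l
    by_cases hj : j = j0
    · intro hmem
      have hcut : cut E j = 1 - α := by rw [hj, hα]; simp only [hj0]; ring
      rw [hcut] at hmem
      have h0 : (⟨0, by omega⟩ : Fin d) ≠ j0 := by
        rw [hj0]; intro h; have := congrArg Fin.val h; simp only at this; omega
      apply hrun (h + 1) hh ⟨⟨0, by omega⟩, h0⟩ (l + 1)
      simp only [cut_zero]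
      obtain ⟨m1, m2⟩ := hmem
      push_cast at m1 m2 ⊢
      constructor <;> linarith
    · exact hrun h (by omega) ⟨j, hj⟩ l
  have hd0 : 0 < d := by omega
  have hdr : ((d - 1 : ℕ) : ℝ) = (d : ℝ) - 1 := by
    rw [Nat.cast_sub (by omega)]; push_cast; ring
  rw [hdr] at hM
  have hcodf : ∀ m, Int.fract (x + m * α) ∈ E.interval (u m) := by
    intro m
    have := hcod m
    rwa [iter_eq E hr0 hrd hE x hx0 hx1] at this
  -- the equality of letters
  rcases lt_or_gt_of_ne hne with hneg | hpos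
  · -- the later orbit is ahead by `w`
    have hwe : w = -((p : ℝ) - q * α) := abs_of_neg hneg
    refine ⟨i0, q, q + (M - 1), by omega, by omega, ?_, ?_⟩
    · intro j hj
      have h1 := hcodf (i0 + j)
      have h2 := hcodf (i0 + j + q)
      have h3 : x + ((i0 + j + q : ℕ) : ℝ) * α = x + ((i0 + j : ℕ) : ℝ) * α + w + (p : ℤ) := by
        rw [hwe]; push_cast; ring
      rw [h3, Int.fract_add_intCast] at h2
      exact letter E _ w hw0 (hall j (by omega)) hd0 h1 h2
    · have h4 : ((M - 1 : ℕ) : ℝ) ≥ (M : ℝ) - 1 := by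
        rcases Nat.eq_zero_or_pos M with h | h
        · rw [h]; simp
        · rw [Nat.cast_sub h]; push_cast; linarith
      push_cast
      nlinarith
  · have hwe : w = (p : ℝ) - q * α := abs_of_pos hpos
    refine ⟨i0 - q, q, q + (M - 1), by omega, by omega, ?_, ?_⟩
    · intro j hj
      have h1 := hcodf (i0 - q + j)
      have h2 := hcodf (i0 - q + j + q)
      have e : i0 - q + j + q = i0 + j := by omega
      rw [e] at h2 ⊢
      have h3 : x + ((i0 - q + j : ℕ) : ℝ) * α = x + ((i0 + j : ℕ) : ℝ) * α + w - (p : ℤ) := by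
        have : ((i0 - q + j : ℕ) : ℝ) = ((i0 + j : ℕ) : ℝ) - q := by
          rw [← e]; push_cast; ring
        rw [this, hwe]; ring
      rw [h3, Int.fract_sub_intCast] at h1
      exact (letter E _ w hw0 (hall j (by omega)) hd0 h2 h1).symm
    · have h4 : ((M - 1 : ℕ) : ℝ) ≥ (M : ℝ) - 1 := by
        rcases Nat.eq_zero_or_pos M with h | h
        · rw [h]; simp
        · rw [Nat.cast_sub h]; push_cast; linarith
      push_cast
      nlinarith

end

/-- **Lower bound for exchanges of rotation type.** -/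
theorem lower_rotation {d : ℕ} (hd : 2 ≤ d) (E : Exchange d) (hrot : IsRotation E)
    (hI : E.Irreducible) (hK : E.Keane) (u : ℕ → Fin d) (hu : E.IsCoding u) :
    ((1 + ph ^ 2 / ((d : ℝ) - 1) : ℝ) : EReal) ≤ critExp u ∧
      ((1 + ph ^ 2 / ((d : ℝ) - 1) : ℝ) : EReal) ≤ asympCritExp u := by
  obtain ⟨r, hr⟩ := hrot
  have hrd : r % d < d := Nat.mod_lt _ (by omega)
  have hr' : ∀ i : Fin d, (E.perm i : ℕ) = ((i : ℕ) + r % d) % d := by
    intro i; rw [hr, Nat.add_mod, Nat.add_mod (i : ℕ) (r % d), Nat.mod_mod]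
  have hr0 : 0 < r % d := by
    rcases Nat.eq_zero_or_pos (r % d) with h | h
    · exfalso
      apply hI 1 one_pos (by omega)
      intro i hi
      rw [hr', h, add_zero, Nat.mod_eq_of_lt i.2]
      exact hi
    · exact h
  exact lower E hr0 hrd hr' hK u hu

end Pool.Helper56.Rot
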