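import Pool.Agent.Helper28.IET3.CF
import Pool.Agent.Helper44.IETGolden

/-!
Two inequalities for consecutive best approximations that cannot hold eventually.
-/

set_option autoImplicit false

namespace Pool.Helper56.Rot

open Pool.Agent.Helper28.IET3 Pool.Agent.Helper44.IET Filter Topology

section

variable (α : ℝ) (hα : Irrational α)

/-- denominators -/
noncomputable def Qs (k : ℕ) : ℝ := (seq α hα k).q
/-- errors -/
noncomputable def Xs (k : ℕ) : ℝ := |(seq α hα k).x|
/-- digits -/
noncomputable def As (k : ℕ) : ℤ := (seq α hα k).A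

theorem Qs_succ (k : ℕ) : Qs α hα (k + 1) = (seq α hα k).q' := rfl

theorem Xs_succ (k : ℕ) : Xs α hα (k + 1) = |(seq α hα k).x'| := rfl

theorem Qs_rec (k : ℕ) : Qs α hα (k + 2) = Qs α hα k + As α hα k * Qs α hα (k + 1) := by
  have h : (seq α hα (k + 1)).q' = (seq α hα k).q + (seq α hα k).A * (seq α hα k).q' :=
    seq_q'_succ α hα k
  have h2 : Qs α hα (k + 2) = ((seq α hα (k + 1)).q' : ℝ) := rfl
  rw [h2, h, Qs_succ]
  unfold Qs As
  push_cast
  ring

theorem Xs_rec (k : ℕ) : Xs α hα (k + 2) = Xs α hα k - As α hα k * Xs α hα (k + 1) := by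
  have h2 : Xs α hα (k + 2) = |((seq α hα k).next hα).x'| := rfl
  rw [h2, Pair.next_x', Pair.abs_next, Xs_succ]
  rfl

theorem area (k : ℕ) : Xs α hα k * Qs α hα (k + 1) + Xs α hα (k + 1) * Qs α hα k = 1 :=
  (seq α hα k).area

theorem Xs_pos (k : ℕ) : 0 < Xs α hα k := (seq α hα k).x_pos

theorem Xs_lt (k : ℕ) : Xs α hα (k + 1) < Xs α hα k := (seq α hα k).dec'

theorem Qs_nonneg (k : ℕ) : 0 ≤ Qs α hα k := by
  unfold Qs; exact_mod_cast (seq α hα k).hq

theorem Qs_one_le (k : ℕ) : 1 ≤ Qs α hα (k + 1) := by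
  rw [Qs_succ]; exact_mod_cast (seq α hα k).hq'

theorem Qs_mono (k : ℕ) : Qs α hα k ≤ Qs α hα (k + 1) := by
  rw [Qs_succ]; unfold Qs; exact_mod_cast (seq α hα k).hqq

theorem Qs_ge (k : ℕ) : (k : ℝ) ≤ Qs α hα (k + 1) := by
  have := seq_q_ge α hα k
  unfold Qs
  exact_mod_cast this

theorem As_one_le (k : ℕ) : 1 ≤ As α hα k := (seq α hα k).one_le_A

theorem Xs_le (k : ℕ) : Xs α hα (k + 1) * (k + 1) ≤ 1 := by
  have h1 := area α hα (k + 1)
  have h2 := Qs_ge α hα (k + 1)
  have h3 := Xs_pos α hα (k + 1)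
  have h4 := mul_nonneg (Xs_pos α hα (k + 2)).le (Qs_nonneg α hα (k + 1))
  push_cast at h2
  nlinarith

theorem Xs_tendsto : Tendsto (Xs α hα) atTop (𝓝 0) := by
  rw [← tendsto_add_atTop_iff_nat 1]
  refine squeeze_zero (fun k => (Xs_pos α hα (k + 1)).le) (g := fun k : ℕ => 1 / ((k : ℝ) + 1)) ?_
    tendsto_one_div_add_atTop_nhds_zero_nat
  intro k
  rw [le_div_iff₀ (by positivity)]
  exact Xs_le α hα k

/-- ratio of consecutive denominators -/
noncomputable def rr (k : ℕ) : ℝ := Qs α hα (k + 1) / Qs α hα k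
/-- ratio of consecutive errors -/
noncomputable def ss (k : ℕ) : ℝ := Xs α hα (k + 1) / Xs α hα k

theorem ss_pos (k : ℕ) : 0 < ss α hα k := div_pos (Xs_pos α hα _) (Xs_pos α hα _)

theorem ss_lt (k : ℕ) : ss α hα k < 1 := by
  unfold ss
  rw [div_lt_one (Xs_pos α hα k)]
  exact Xs_lt α hα k

theorem ss_rec (k : ℕ) : ss α hα k * (As α hα k + ss α hα (k + 1)) = 1 := by
  have h1 := Xs_pos α hα k
  have h2 := Xs_pos α hα (k + 1)
  have h3 := Xs_rec α hα k
  unfold ss
  rw [h3]
  field_simp
  ring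

theorem rr_ge (k : ℕ) : 1 ≤ rr α hα (k + 1) := by
  unfold rr
  rw [le_div_iff₀ (by linarith [Qs_one_le α hα k]), one_mul]
  exact Qs_mono α hα (k + 1)

theorem rr_rec (k : ℕ) : rr α hα (k + 2) = As α hα (k + 1) + 1 / rr α hα (k + 1) := by
  have h1 := Qs_one_le α hα k
  have h2 := Qs_one_le α hα (k + 1)
  have h3 := Qs_rec α hα (k + 1)
  unfold rr
  rw [h3]
  have : Qs α hα (k + 1) ≠ 0 := by linarith
  have : Qs α hα (k + 1 + 1) ≠ 0 := by
    have : (1 : ℝ) ≤ Qs α hα (k + 1 + 1) := h2
    linarith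
  field_simp
  ring

theorem one_eq (k : ℕ) :
    Qs α hα (k + 1) * Xs α hα (k + 1) * (rr α hα (k + 1) + ss α hα (k + 1)) = 1 := by
  have h1 := Qs_one_le α hα k
  have h2 := Xs_pos α hα (k + 1)
  have h3 := area α hα (k + 1)
  unfold rr ss
  have : Qs α hα (k + 1) ≠ 0 := by linarith
  field_simp
  linarith

end

theorem ph_sq' : ph ^ 2 = ph + 1 := by
  have h1 := ph_eq
  have h2 := al_mul_ph
  nlinarith

/-- If `r + s < φ²` eventually, the digits are eventually `1`. -/
theorem digits_one (α : ℝ) (hα : Irrational α) (K : ℕ)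
    (h : ∀ k, K ≤ k → rr α hα (k + 1) + ss α hα (k + 1) < ph ^ 2) :
    ∀ k, K ≤ k → As α hα (k + 1) = 1 := by
  intro k hk
  by_contra hA
  have h1 := As_one_le α hα (k + 1)
  have hA2 : (2 : ℝ) ≤ As α hα (k + 1) := by
    have : 2 ≤ As α hα (k + 1) := by omega
    exact_mod_cast this
  have hphu : ph ^ 2 < 2.6185 := by rw [ph_sq']; linarith [ph_lt]
  have h2 := h k hk
  have h3 := h (k + 1) (by omega)
  have h4 := h (k + 2) (by omega)
  have s1 := ss_pos α hα (k + 1)
  have s2 := ss_pos α hα (k + 2)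
  have s3 := ss_pos α hα (k + 3)
  have s3' := ss_lt α hα (k + 3)
  have r1 := rr_ge α hα k
  have r2 := rr_ge α hα (k + 1)
  have e1 := rr_rec α hα k
  have e2 := rr_rec α hα (k + 1)
  have e3 := ss_rec α hα (k + 2)
  -- bound for the next digit
  have hA' : As α hα (k + 2) ≤ 2 := by
    by_contra hcon
    push Not at hcon
    have h5 : (3 : ℝ) ≤ As α hα (k + 2) := by exact_mod_cast hcon
    have h6 : 0 < 1 / rr α hα (k + 1 + 1) := by positivity
    have h7 : rr α hα (k + 3) < ph ^ 2 := by
      have : rr α hα (k + 2 + 1) + ss α hα (k + 2 + 1) < ph ^ 2 := h4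
      have : 0 < ss α hα (k + 2 + 1) := s3
      linarith
    rw [show k + 3 = k + 1 + 2 by ring, e2] at h7
    have : (3 : ℝ) ≤ As α hα (k + 1 + 1) := h5
    linarith
  have hA'' : (As α hα (k + 2) : ℝ) ≤ 2 := by exact_mod_cast hA'
  have h8 : 1 / 3 ≤ ss α hα (k + 2) := by
    by_contra hcon
    push Not at hcon
    have h9 : ss α hα (k + 2) * (As α hα (k + 2) + ss α hα (k + 2 + 1)) < 1 := by
      have : ss α hα (k + 2 + 1) < 1 := s3'
      have : 0 < ss α hα (k + 2 + 1) := s3
      have hA0 : (0 : ℝ) ≤ As α hα (k + 2) := by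
        have := As_one_le α hα (k + 2)
        exact_mod_cast (by omega : (0 : ℤ) ≤ As α hα (k + 2))
      nlinarith
    linarith
  have h10 : 1 / 2.6185 < 1 / rr α hα (k + 1) := by
    apply one_div_lt_one_div_of_lt (by linarith)
    linarith
  have h11 : rr α hα (k + 2) + ss α hα (k + 2) < ph ^ 2 := h3
  rw [e1] at h11
  norm_num at h10
  norm_num at h11
  linarith

/-- In a tail with all digits `1`, the ratios of the errors are exactly `1 / φ`. -/
theorem ss_golden (α : ℝ) (hα : Irrational α) (K : ℕ)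
    (h : ∀ k, K ≤ k → As α hα k = 1) : ∀ k, K ≤ k → ss α hα k = al := by
  have hal := al_pos
  have hal1 := al_lt_one
  have hsq := al_sq
  have key : ∀ n k, K ≤ k → |ss α hα k - al| ≤ al ^ n := by
    intro n
    induction n with
    | zero =>
      intro k _
      have := ss_pos α hα k
      have := ss_lt α hα k
      rw [pow_zero, abs_le]
      constructor <;> linarith
    | succ n ih =>
      intro k hk
      have h1 := ih (k + 1) (by omega)
      have h2 := ss_rec α hα k
      rw [h k hk] at h2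
      push_cast at h2
      have s1 := ss_pos α hα k
      have s2 := ss_pos α hα (k + 1)
      have s3 := ss_lt α hα k
      -- s - al = - al * s * (s' - al)
      have h3 : ss α hα k - al = -(al * ss α hα k) * (ss α hα (k + 1) - al) := by
        have e : ss α hα k * ss α hα (k + 1) = 1 - ss α hα k := by linarith
        linear_combination al * e - ss α hα k * hsq
      rw [h3, abs_mul, abs_neg, abs_of_pos (by positivity), pow_succ]
      have h4 : al * ss α hα k ≤ al := by nlinarith
      have h5 : 0 ≤ |ss α hα (k + 1) - al| := abs_nonneg _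
      calc al * ss α hα k * |ss α hα (k + 1) - al| ≤ al * al ^ n := by
            apply mul_le_mul h4 h1 h5 hal.le
        _ = al ^ n * al := by ring
  intro k hk
  have h1 : |ss α hα k - al| ≤ 0 := by
    have h2 : Tendsto (fun n : ℕ => al ^ n) atTop (𝓝 0) :=
      tendsto_pow_atTop_nhds_zero_of_lt_one hal.le hal1
    exact ge_of_tendsto' h2 (fun n => key n k hk)
  have h2 := abs_nonneg (ss α hα k - al)
  have h3 : |ss α hα k - al| = 0 := le_antisymm h1 h2
  rw [abs_eq_zero] at h3
  linarith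

/-- In a tail with all digits `1`, the ratios of the denominators tend to `φ`. -/
theorem rr_golden (α : ℝ) (hα : Irrational α) (K : ℕ)
    (h : ∀ k, K ≤ k → As α hα (k + 1) = 1) :
    Tendsto (fun n => rr α hα (K + n + 1)) atTop (𝓝 ph) := by
  have hal := al_pos
  have hal1 := al_lt_one
  have hph := ph_pos
  have hap := al_mul_ph
  have hpe := ph_eq
  have key : ∀ n, |rr α hα (K + n + 1) - ph| ≤ al ^ n * |rr α hα (K + 1) - ph| := by
    intro n
    induction n with
    | zero => simp
    | succ n ih =>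
      have r1 := rr_ge α hα (K + n)
      have e := rr_rec α hα (K + n)
      rw [h (K + n) (by omega)] at e
      push_cast at e
      have h3 : rr α hα (K + n + 2) - ph =
          -(al * (1 / rr α hα (K + n + 1))) * (rr α hα (K + n + 1) - ph) := by
        rw [e]
        have hne : rr α hα (K + n + 1) ≠ 0 := by linarith
        field_simp
        nlinarith
      have h4 : 1 / rr α hα (K + n + 1) ≤ 1 := by
        rw [div_le_one (by linarith)]; exact r1
      have h5 : 0 < 1 / rr α hα (K + n + 1) := by positivity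
      have h6 : rr α hα (K + (n + 1) + 1) = rr α hα (K + n + 2) := by
        congr 1
      rw [h6, h3, abs_mul, abs_neg, abs_of_pos (by positivity), pow_succ]
      have h7 : 0 ≤ |rr α hα (K + n + 1) - ph| := abs_nonneg _
      calc al * (1 / rr α hα (K + n + 1)) * |rr α hα (K + n + 1) - ph|
          ≤ al * (al ^ n * |rr α hα (K + 1) - ph|) := by
            apply mul_le_mul _ ih h7 hal.le
            nlinarith
        _ = al ^ n * al * |rr α hα (K + 1) - ph| := by ring
  have h2 : Tendsto (fun n : ℕ => al ^ n * |rr α hα (K + 1) - ph|) atTop (𝓝 0) := by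
    have := (tendsto_pow_atTop_nhds_zero_of_lt_one hal.le hal1).mul_const |rr α hα (K + 1) - ph|
    simpa using this
  rw [tendsto_iff_dist_tendsto_zero]
  refine squeeze_zero (fun _ => dist_nonneg) (fun n => ?_) h2
  rw [Real.dist_eq]
  exact key n

/-- The two inequalities cannot hold for all large `k`. -/
theorem tail_contra (α : ℝ) (hα : Irrational α) (c D : ℝ) (hc : c < ph ^ 2) (K : ℕ)
    (h1 : ∀ k, K ≤ k → 1 ≤ c * (Qs α hα (k + 1) * Xs α hα (k + 1)) + D * Xs α hα (k + 1))
    (h2 : ∀ k, K ≤ k → 1 ≤ c * (Qs α hα (k + 1) * Xs α hα (k + 2) +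
      (Qs α hα (k + 2) - Qs α hα (k + 1)) * (Xs α hα (k + 1) - Xs α hα (k + 2))) +
      D * Xs α hα (k + 1)) : False := by
  have hph := ph_pos
  have hal := al_pos
  have hap := al_mul_ph
  have hpe := ph_eq
  have hsq := al_sq
  have hph2 : 0 < ph ^ 2 := by positivity
  -- the slack
  obtain ⟨η, hη0, hη⟩ : ∃ η : ℝ, 0 < η ∧ c < (1 - η) * ph ^ 2 := by
    refine ⟨(1 - c / ph ^ 2) / 2, ?_, ?_⟩
    · have : c / ph ^ 2 < 1 := by rw [div_lt_one hph2]; exact hc
      linarith
    · have : (1 - (1 - c / ph ^ 2) / 2) * ph ^ 2 = (ph ^ 2 + c) / 2 := by field_simp; ring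
      rw [this]; linarith
  -- small errors
  have hev : ∀ᶠ k in atTop, D * Xs α hα (k + 1) ≤ η := by
    have h3 : Tendsto (fun k => D * Xs α hα (k + 1)) atTop (𝓝 (D * 0)) :=
      ((tendsto_add_atTop_iff_nat 1).2 (Xs_tendsto α hα)).const_mul D
    rw [mul_zero] at h3
    exact (h3.eventually_lt_const hη0).mono fun k hk => hk.le
  obtain ⟨K1, hK1⟩ := eventually_atTop.1 hev
  set K2 := max K K1 with hK2
  have g1 : ∀ k, K2 ≤ k → 1 - η ≤ c * (Qs α hα (k + 1) * Xs α hα (k + 1)) := by
    intro k hk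
    have := h1 k (le_trans (le_max_left _ _) hk)
    have := hK1 k (le_trans (le_max_right _ _) hk)
    linarith
  have g2 : ∀ k, K2 ≤ k → 1 - η ≤ c * (Qs α hα (k + 1) * Xs α hα (k + 2) +
      (Qs α hα (k + 2) - Qs α hα (k + 1)) * (Xs α hα (k + 1) - Xs α hα (k + 2))) := by
    intro k hk
    have := h2 k (le_trans (le_max_left _ _) hk)
    have := hK1 k (le_trans (le_max_right _ _) hk)
    linarith
  have hqx : ∀ k, 0 < Qs α hα (k + 1) * Xs α hα (k + 1) := fun k =>
    mul_pos (by linarith [Qs_one_le α hα k]) (Xs_pos α hα _)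
  have hη1 : η < 1 ∨ 1 ≤ η := lt_or_ge _ _
  have hcpos : 0 < c ∧ η < 1 := by
    rcases hη1 with h | h
    · refine ⟨?_, h⟩
      have h3 := g1 K2 le_rfl
      have h4 := hqx K2
      by_contra hcon
      push Not at hcon
      have := mul_nonpos_of_nonpos_of_nonneg hcon h4.le
      linarith
    · exfalso
      -- then c < 0 or so: use g1 at large k where the area is bounded below
      have h3 := g1 K2 le_rfl
      have h5 : c < 0 ∨ c = 0 ∨ 0 < c := by
        rcases lt_trichotomy c 0 with h | h | h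
        · exact Or.inl h
        · exact Or.inr (Or.inl h)
        · exact Or.inr (Or.inr h)
      have h6 : (1 - η) * ph ^ 2 ≤ 0 := mul_nonpos_of_nonpos_of_nonneg (by linarith) hph2.le
      have hcneg : c < 0 := by linarith
      -- area: Q X (r + s) = 1 with r + s large is possible, so use errors instead
      have h7 : Tendsto (fun k => D * Xs α hα (k + 1)) atTop (𝓝 0) := by
        have h3 : Tendsto (fun k => D * Xs α hα (k + 1)) atTop (𝓝 (D * 0)) :=
          ((tendsto_add_atTop_iff_nat 1).2 (Xs_tendsto α hα)).const_mul D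
        rwa [mul_zero] at h3
      have h8 := h7.eventually_lt_const (show (0 : ℝ) < 1 by norm_num)
      obtain ⟨N, hN⟩ := eventually_atTop.1 h8
      have h9 := hN (max N K) (le_max_left _ _)
      have h10 := h1 (max N K) (le_max_right _ _)
      have h11 := mul_neg_of_neg_of_pos hcneg (hqx (max N K))
      linarith
  obtain ⟨hc0, hηlt⟩ := hcpos
  have hrs : ∀ k, K2 ≤ k → rr α hα (k + 1) + ss α hα (k + 1) < ph ^ 2 := by
    intro k hk
    have e := one_eq α hα k
    have h3 := g1 k hk
    have h4 := hqx k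
    by_contra hcon
    push Not at hcon
    have h5 : (1 - η) * ph ^ 2 ≤ c := by
      have h6 : (1 - η) * ph ^ 2 ≤ c * (Qs α hα (k + 1) * Xs α hα (k + 1)) * ph ^ 2 :=
        mul_le_mul_of_nonneg_right h3 hph2.le
      have h7 : c * (Qs α hα (k + 1) * Xs α hα (k + 1)) * ph ^ 2 ≤
          c * (Qs α hα (k + 1) * Xs α hα (k + 1)) * (rr α hα (k + 1) + ss α hα (k + 1)) :=
        mul_le_mul_of_nonneg_left hcon (by positivity)
      have h8 : c * (Qs α hα (k + 1) * Xs α hα (k + 1)) * (rr α hα (k + 1) + ss α hα (k + 1)) =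
          c := by
        rw [mul_assoc, e, mul_one]
      linarith
    linarith
  have hA := digits_one α hα K2 hrs
  have hs := ss_golden α hα (K2 + 1) (by
    intro k hk
    obtain ⟨m, rfl⟩ : ∃ m, k = m + 1 := ⟨k - 1, by omega⟩
    exact hA m (by omega))
  have hr := rr_golden α hα K2 hA
  -- the final inequality
  have hfin : ∀ n, (1 - η) * (rr α hα (K2 + n + 1) + al) ≤
      c * (al + (rr α hα (K2 + n + 1) - 1) * (1 - al)) := by
    intro n
    have h3 := g2 (K2 + n) (by omega)
    have e := one_eq α hα (K2 + n)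
    have h4 := hqx (K2 + n)
    have hs1 := hs (K2 + n + 1) (by omega)
    rw [hs1] at e
    have e2 : Qs α hα (K2 + n + 1) * Xs α hα (K2 + n + 2) +
        (Qs α hα (K2 + n + 2) - Qs α hα (K2 + n + 1)) *
          (Xs α hα (K2 + n + 1) - Xs α hα (K2 + n + 2)) =
        Qs α hα (K2 + n + 1) * Xs α hα (K2 + n + 1) *
          (al + (rr α hα (K2 + n + 1) - 1) * (1 - al)) := by
      have hx : Xs α hα (K2 + n + 2) = al * Xs α hα (K2 + n + 1) := by
        rw [← hs1]; unfold ss
        have := Xs_pos α hα (K2 + n + 1)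
        field_simp
      have hq : Qs α hα (K2 + n + 2) = rr α hα (K2 + n + 1) * Qs α hα (K2 + n + 1) := by
        unfold rr
        have h9 := Qs_one_le α hα (K2 + n)
        have : Qs α hα (K2 + n + 1) ≠ 0 := by linarith
        field_simp
      rw [hx, hq]; ring
    rw [e2] at h3
    have h5 : (1 - η) * (rr α hα (K2 + n + 1) + al) ≤
        c * (Qs α hα (K2 + n + 1) * Xs α hα (K2 + n + 1) *
          (al + (rr α hα (K2 + n + 1) - 1) * (1 - al))) * (rr α hα (K2 + n + 1) + al) :=
      mul_le_mul_of_nonneg_right h3 (by linarith [rr_ge α hα (K2 + n)])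
    have h6 : c * (Qs α hα (K2 + n + 1) * Xs α hα (K2 + n + 1) *
          (al + (rr α hα (K2 + n + 1) - 1) * (1 - al))) * (rr α hα (K2 + n + 1) + al) =
        c * (al + (rr α hα (K2 + n + 1) - 1) * (1 - al)) := by
      calc _ = c * (al + (rr α hα (K2 + n + 1) - 1) * (1 - al)) *
            (Qs α hα (K2 + n + 1) * Xs α hα (K2 + n + 1) * (rr α hα (K2 + n + 1) + al)) := by ring
        _ = _ := by rw [e, mul_one]
    linarith
  have hlim : (1 - η) * (ph + al) ≤ c * (al + (ph - 1) * (1 - al)) := by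
    have t1 : Tendsto (fun n => (1 - η) * (rr α hα (K2 + n + 1) + al)) atTop
        (𝓝 ((1 - η) * (ph + al))) := (hr.add_const al).const_mul _
    have t2 : Tendsto (fun n => c * (al + (rr α hα (K2 + n + 1) - 1) * (1 - al))) atTop
        (𝓝 (c * (al + (ph - 1) * (1 - al)))) :=
      (((hr.sub_const 1).mul_const (1 - al)).const_add al).const_mul c
    exact le_of_tendsto_of_tendsto' t1 t2 hfin
  -- `(al + (ph - 1)(1 - al)) φ² = φ + al`
  have e3 : (al + (ph - 1) * (1 - al)) * ph ^ 2 = ph + al := by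
    rw [hpe]
    have hsq' : al ^ 2 = 1 - al := by rw [sq]; exact hsq
    have : al + (al + 1 - 1) * (1 - al) = 2 * al - al ^ 2 := by ring
    rw [this, hsq']
    have e4 : (2 * al - (1 - al)) * (al + 1) ^ 2 = 3 * (al ^ 2 * al) + 5 * al ^ 2 + al - 1 := by ring
    rw [e4, hsq']
    have e5 : (1 - al) * al = al - al ^ 2 := by ring
    rw [e5, hsq']
    ring
  have hpos : 0 < al + (ph - 1) * (1 - al) := by
    have : 0 < 1 - al := by linarith [al_lt_one]
    have : 0 < ph - 1 := by linarith
    positivity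
  have h7 : (1 - η) * ((al + (ph - 1) * (1 - al)) * ph ^ 2) ≤ c * (al + (ph - 1) * (1 - al)) := by
    rw [e3]; exact hlim
  have h8 : (1 - η) * ph ^ 2 ≤ c := by
    by_contra hcon
    push Not at hcon
    have := mul_lt_mul_of_pos_right hcon hpos
    nlinarith
  linarith

end Pool.Helper56.Rot
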