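import Pool.Agent.Helper56.Rot.Exch
import Pool.Agent.Helper44.IETUpper

/-!
The repetition thresholds of the codings of exchanges of rotation type.
-/

set_option autoImplicit false

namespace Pool.Helper56.Rot

open Pool.Agent.Helper44.IET Finset

/-- the class of all codings of irreducible `d`-interval exchanges with Keane's condition whose
permutation is a rotation of the intervals -/
def RotCodings (d : ℕ) : Set (ℕ → Fin d) :=
  {u | ∃ E : Exchange d, IsRotation E ∧ E.Irreducible ∧ E.Keane ∧ E.IsCoding u}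

/-- repetition threshold of this class -/
noncomputable def RTrot (d : ℕ) : EReal := ⨅ (u : ℕ → Fin d) (_ : u ∈ RotCodings d), critExp u

/-- asymptotic repetition threshold of this class -/
noncomputable def RTstarRot (d : ℕ) : EReal :=
  ⨅ (u : ℕ → Fin d) (_ : u ∈ RotCodings d), asympCritExp u

theorem isRotation_ex {d : ℕ} (C : Cuts d) : IsRotation C.ex := by
  refine ⟨d - C.r, fun i => ?_⟩
  change ((rotPerm d C.r C.hrd.le i : Fin d) : ℕ) = _
  have h1 := C.hr0
  have h2 := C.hrd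
  have h3 := i.2
  rw [rotPerm_val]
  split_ifs with h
  · rw [Nat.mod_eq_of_lt (by omega)]
  · have h4 : (i : ℕ) + (d - C.r) = ((i : ℕ) - C.r) + d := by omega
    rw [h4, Nat.add_mod_right, Nat.mod_eq_of_lt (by omega)]

/-- existence of good exchanges -/
lemma exists_good (c d : ℤ) (hr : 1 ≤ re c d) (hc : cj c d ≠ 0) (D : ℕ)
    (hN : |re c d * cj c d| ≤ D) (B : ℝ) (hB : 0 ≤ B)
    (hBB : ∀ p m : ℕ, 0 < p → 1 ≤ m → (m : ℝ) * |cj c d| ≤ ph ^ 2 * p + 2.71 →
      0.47 * |cj c d| - 1 ≤ 2.237 * p → (m : ℝ) ≤ B * p) :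
    RTrot (D + 1) ≤ ((1 + B : ℝ) : EReal) := by
  obtain ⟨C, hK, hC⟩ := exists_cuts c d (by linarith) hc D hN
  have hx0 : (0 : ℝ) ∈ Set.Ico (0 : ℝ) 1 := ⟨le_rfl, by norm_num⟩
  have hiter : ∀ n, ∃ j, C.ex.T^[n] 0 ∈ C.ex.interval j := by
    intro n
    rw [C.iter_eq 0 hx0.1 hx0.2]
    exact C.exists_interval _ (Int.fract_nonneg _) (Int.fract_lt_one _)
  choose u hu using hiter
  have hmem : u ∈ RotCodings (D + 1) := ⟨C.ex, isRotation_ex C, C.irreducible, hK, 0, hx0, hu⟩
  refine le_trans (iInf₂_le u hmem) ?_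
  unfold critExp
  refine iSup_le fun i => iSup_le fun p => iSup_le fun l => iSup_le fun hp => iSup_le fun hpow => ?_
  rw [EReal.coe_le_coe_iff]
  have hp0 : (0 : ℝ) < p := by exact_mod_cast hp
  rw [div_le_iff₀ hp0]
  rcases Nat.lt_or_ge p l with h | h
  · obtain ⟨m, rfl⟩ := Nat.exists_eq_add_of_lt h
    have hpow' : HasPower u i p (p + (m + 1)) := hpow
    obtain ⟨s, δ, h1, h2, h3, h4, h5⟩ := power_bound c d hr hc D C hC u 0 hx0 hu i p (m + 1) hp hpow'
    obtain ⟨h6, h7⟩ := length_le |cj c d| δ s (m + 1) p (abs_pos.mpr hc) (by omega) h1 h2 h3 h4 h5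
    have h8 := hBB p (m + 1) hp (by omega) h6 h7
    push_cast at h8 ⊢
    linarith
  · have h1 : (l : ℝ) ≤ p := by exact_mod_cast h
    nlinarith

/-- a first bound, from the superlattice of index `n ^ 2` -/
theorem upper_n (n D : ℕ) (hn1 : 1 ≤ n) (hn2 : n * n ≤ D) :
    RTrot (D + 1) ≤ ((1 + 5.33 * ph / ((n : ℝ) * n) : ℝ) : EReal) := by
  have hnr : (1 : ℝ) ≤ n := by exact_mod_cast hn1
  have hph := one_lt_ph
  obtain ⟨j, hj1, hj2⟩ := exists_nat_pow_near hnr hph
  obtain ⟨c, d, hc, hd⟩ := scale_down_pow j n 0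
  have hre0 : re (n : ℤ) 0 = n := by unfold re; push_cast; ring
  have hcj0 : cj (n : ℤ) 0 = n := by unfold cj; push_cast; ring
  rw [hre0] at hc
  rw [hcj0] at hd
  have hpj : 0 < ph ^ j := pow_pos ph_pos j
  have haj : 0 < al ^ j := pow_pos al_pos j
  have hr1 : 1 ≤ re c d := by
    rw [hc, ← al_pow_mul_ph_pow j]
    exact mul_le_mul_of_nonneg_left hj1 haj.le
  have habs : |cj c d| = ph ^ j * n := by
    rw [hd, abs_mul, abs_pow, abs_neg, abs_of_pos ph_pos, abs_of_nonneg (by positivity)]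
  have hcne : cj c d ≠ 0 := by
    intro h
    rw [h, abs_zero] at habs
    have : 0 < ph ^ j * n := by positivity
    linarith
  have hN : |re c d * cj c d| ≤ D := by
    rw [abs_mul, habs, abs_of_nonneg (by linarith), hc]
    have h1 : al ^ j * (n : ℝ) * (ph ^ j * n) = n * n := by
      have := al_pow_mul_ph_pow j
      linear_combination (n : ℝ) * n * this
    rw [h1]
    exact_mod_cast hn2
  have hη : (n : ℝ) * n ≤ ph * |cj c d| := by
    rw [habs]
    have h2 : (n : ℝ) * n ≤ ph ^ (j + 1) * n := by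
      apply mul_le_mul_of_nonneg_right hj2.le (by positivity)
    calc (n : ℝ) * n ≤ ph ^ (j + 1) * n := h2
      _ = ph * (ph ^ j * n) := by ring
  apply exists_good c d hr1 hcne D hN _ (by have := ph_pos; positivity)
  intro p m hp hm h1 _
  have hp1 : (1 : ℝ) ≤ p := by exact_mod_cast hp
  have hphl := ph_lt
  have hphg := ph_gt
  have hηpos : 0 < |cj c d| := abs_pos.mpr hcne
  have h2 : (m : ℝ) * |cj c d| ≤ 5.33 * p := by
    rw [ph_sq] at h1
    nlinarith
  have hm0 : (0 : ℝ) ≤ m := Nat.cast_nonneg m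
  have h3 : (m : ℝ) * (n * n) ≤ 5.33 * ph * p := by
    calc (m : ℝ) * (n * n) ≤ m * (ph * |cj c d|) := mul_le_mul_of_nonneg_left hη hm0
      _ = ph * (m * |cj c d|) := by ring
      _ ≤ ph * (5.33 * p) := mul_le_mul_of_nonneg_left h2 (by positivity)
      _ = 5.33 * ph * p := by ring
  rw [div_mul_eq_mul_div, le_div_iff₀ (by positivity)]
  exact h3

/-- the bound for large `D` -/
theorem upper_large (D : ℕ) (hD : 93 ≤ D) :
    RTrot (D + 1) ≤ ((1 + (ph ^ 2 + 100 / Real.sqrt D) / (D : ℝ) : ℝ) : EReal) := by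
  have hDr : (93 : ℝ) ≤ D := by exact_mod_cast hD
  have hDpos : (0 : ℝ) < D := by linarith
  set t := Real.sqrt D with ht
  have htt : t * t = D := Real.mul_self_sqrt hDpos.le
  have ht9 : 9.64 < t := by
    rw [ht]
    apply Real.lt_sqrt_of_sq_lt
    norm_num
    linarith
  have htpos : 0 < t := by linarith
  have hphl := ph_lt
  have hphg := ph_gt
  have hph0 := ph_pos
  obtain ⟨k, hk1, hk2⟩ := exists_nat_pow_near (show (1 : ℝ) ≤ t by linarith) one_lt_ph
  have hpk : 0 < ph ^ k := pow_pos ph_pos k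
  have hak : 0 < al ^ k := pow_pos al_pos k
  have hek := al_pow_mul_ph_pow k
  set e := al ^ k with he
  have hPdef : ph ^ (k + 2) = ph ^ 2 * ph ^ k := by ring
  set P := ph ^ (k + 2) with hP
  have hPle : P ≤ (ph + 1) * t := by
    rw [hPdef, ph_sq]
    exact mul_le_mul_of_nonneg_left hk1 (by linarith)
  have hPpos : 0 < P := pow_pos ph_pos _
  have het : e * t ≤ ph := by
    have h1 : e * t ≤ e * ph ^ (k + 1) := mul_le_mul_of_nonneg_left hk2.le hak.le
    have h2 : e * ph ^ (k + 1) = ph := by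
      have : e * ph ^ (k + 1) = (e * ph ^ k) * ph := by ring
      rw [this, hek, one_mul]
    linarith
  have heD : e * D ≤ ph * t := by
    rw [← htt]
    have := mul_le_mul_of_nonneg_right het htpos.le
    linarith
  obtain ⟨c, d, h1, h2, h3, h4⟩ := hit k 1 (D / (1 + e) - P)
  have hlow : D * (1 - e) - P ≤ cj c d := by
    refine le_trans ?_ h3
    have : (D : ℝ) * (1 - e) ≤ D / (1 + e) := by
      rw [le_div_iff₀ (by linarith)]
      nlinarith [mul_pos hDpos (mul_pos hak hak)]
    linarith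
  have hlow2 : (D : ℝ) - 4.238 * t ≤ cj c d := by
    have e1 : ph * t ≤ 1.6185 * t := mul_le_mul_of_nonneg_right hphl.le htpos.le
    have e2 : (D : ℝ) * (1 - e) = D - e * D := by ring
    have e3 : (ph + 1) * t = ph * t + t := by ring
    rw [e2] at hlow
    rw [e3] at hPle
    linarith
  have hlow3 : 0.56 * (D : ℝ) ≤ cj c d := by
    refine le_trans ?_ hlow2
    have e1 : 9.64 * t ≤ t * t := mul_le_mul_of_nonneg_right ht9.le htpos.le
    rw [htt] at e1
    linarith
  have hhigh : cj c d ≤ D / (1 + e) := by linarith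
  have hcpos : 0 < cj c d := by linarith
  have hN : |re c d * cj c d| ≤ D := by
    rw [abs_of_nonneg (mul_nonneg (by linarith) hcpos.le)]
    have h5 : cj c d * (1 + e) ≤ D := by
      rwa [le_div_iff₀ (by linarith)] at hhigh
    calc re c d * cj c d ≤ (1 + e) * cj c d := mul_le_mul_of_nonneg_right h2 hcpos.le
      _ = cj c d * (1 + e) := by ring
      _ ≤ D := h5
  apply exists_good c d h1.le hcpos.ne' D hN ((ph ^ 2 + 100 / t) / D) (by positivity)
  rw [abs_of_pos hcpos]
  intro p m hp hm h5 h6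
  have hp0 : (0 : ℝ) < p := by exact_mod_cast hp
  have hm0 : (0 : ℝ) ≤ m := Nat.cast_nonneg m
  have hpD : 0.11 * (D : ℝ) ≤ p := by
    linarith
  have h100 : 0 < 100 / t := by positivity
  -- `2.71 ≤ (3 / t) * p`
  have h7 : 2.71 ≤ 3 / t * p := by
    rw [div_mul_eq_mul_div, le_div_iff₀ htpos]
    have e1 : 9.64 * t ≤ t * t := mul_le_mul_of_nonneg_right ht9.le htpos.le
    rw [htt] at e1
    linarith
  have h8 : (m : ℝ) * cj c d ≤ (ph ^ 2 + 3 / t) * p := by linarith
  have h9 : (ph ^ 2 + 3 / t) * D ≤ (ph ^ 2 + 100 / t) * cj c d := by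
    refine le_trans ?_ (mul_le_mul_of_nonneg_left hlow2 (by positivity))
    have e1 : (ph ^ 2 + 3 / t) * D = ph ^ 2 * D + 3 * t := by
      rw [← htt]; field_simp
    have e2 : (ph ^ 2 + 100 / t) * (D - 4.238 * t)
        = ph ^ 2 * D + 100 * t - 4.238 * ph ^ 2 * t - 423.8 := by
      rw [← htt]; field_simp; ring
    rw [e1, e2, ph_sq]
    have e3 : ph * t ≤ 1.6185 * t := mul_le_mul_of_nonneg_right hphl.le htpos.le
    have e4 : 4.238 * (ph + 1) * t = 4.238 * (ph * t) + 4.238 * t := by ring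
    rw [e4]
    linarith
  rw [div_mul_eq_mul_div, le_div_iff₀ hDpos]
  have h10 : (m : ℝ) * D * cj c d ≤ ((ph ^ 2 + 100 / t) * p) * cj c d := by
    calc (m : ℝ) * D * cj c d = (m * cj c d) * D := by ring
      _ ≤ ((ph ^ 2 + 3 / t) * p) * D := mul_le_mul_of_nonneg_right h8 hDpos.le
      _ = p * ((ph ^ 2 + 3 / t) * D) := by ring
      _ ≤ p * ((ph ^ 2 + 100 / t) * cj c d) := mul_le_mul_of_nonneg_left h9 hp0.le
      _ = ((ph ^ 2 + 100 / t) * p) * cj c d := by ring
  exact le_of_mul_le_mul_right h10 hcpos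

/-- upper bound for all `d` -/
theorem upper_all (D : ℕ) (hD : 1 ≤ D) :
    RTrot (D + 1) ≤ ((1 + (ph ^ 2 + 100 / Real.sqrt D) / (D : ℝ) : ℝ) : EReal) := by
  rcases Nat.lt_or_ge D 93 with h93 | h93
  · set n := Nat.sqrt D with hn
    have hn1 : 1 ≤ n := by
      rw [hn, Nat.le_sqrt]; simpa using hD
    have hn2 : n * n ≤ D := Nat.sqrt_le D
    have hn3 : D ≤ n * n + n + n := Nat.sqrt_le_add D
    refine le_trans (upper_n n D hn1 hn2) ?_
    rw [EReal.coe_le_coe_iff]
    have hphl := ph_lt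
    have hphg := ph_gt
    have hnr : (1 : ℝ) ≤ n := by exact_mod_cast hn1
    have hDpos : (0 : ℝ) < D := by exact_mod_cast hD
    have hsD : 0 < Real.sqrt D := Real.sqrt_pos.mpr hDpos
    have key : ∀ K M : ℝ, 0 < K → (D : ℝ) ≤ K * (n * n) → Real.sqrt D ≤ M →
        5.33 * ph * K ≤ ph ^ 2 + 100 / M → 0 < M →
        1 + 5.33 * ph / ((n : ℝ) * n) ≤ 1 + (ph ^ 2 + 100 / Real.sqrt D) / (D : ℝ) := by
      intro K M hK h1 h2 h3 hM
      have h4 : 100 / M ≤ 100 / Real.sqrt D := by
        apply div_le_div_of_nonneg_left (by norm_num) hsD h2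
      have h5 : 5.33 * ph / ((n : ℝ) * n) ≤ (5.33 * ph * K) / D := by
        rw [div_le_div_iff₀ (by positivity) hDpos]
        have := mul_le_mul_of_nonneg_left h1 (show 0 ≤ 5.33 * ph by linarith)
        nlinarith
      have h6 : (5.33 * ph * K) / D ≤ (ph ^ 2 + 100 / Real.sqrt D) / (D : ℝ) :=
        div_le_div_of_nonneg_right (by linarith) hDpos.le
      linarith
    rcases Nat.lt_or_ge D 19 with h19 | h19
    · apply key 3 4.25 (by norm_num) _ _ _ (by norm_num)
      · have : D ≤ 3 * (n * n) := by nlinarith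
        exact_mod_cast this
      · rw [Real.sqrt_le_left (by norm_num)]
        have : (D : ℝ) ≤ 18 := by exact_mod_cast (by omega : D ≤ 18)
        norm_num
        linarith
      · rw [ph_sq]; norm_num; linarith
    · apply key 1.5 9.6 (by norm_num) _ _ _ (by norm_num)
      · have h4 : 4 ≤ n := by
          rw [hn, Nat.le_sqrt]; omega
        have : 2 * D ≤ 3 * (n * n) := by nlinarith
        have h5 : (2 : ℝ) * D ≤ 3 * (n * n) := by exact_mod_cast this
        linarith
      · rw [Real.sqrt_le_left (by norm_num)]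
        have : (D : ℝ) ≤ 92 := by exact_mod_cast (by omega : D ≤ 92)
        norm_num
        linarith
      · rw [ph_sq]; norm_num; linarith
  · exact upper_large D h93

end Pool.Helper56.Rot
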