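import Pool.Agent.Helper56.Rot.Cover
import Pool.Agent.Helper56.Rot.Tail
import Pool.Agent.Helper28.IET3.Runs

/-!
Long runs of a window avoiding `D` marked orbits of a rotation.
-/

set_option autoImplicit false

namespace Pool.Helper56.Rot

open Pool.Agent.Helper28.IET3 Pool.Agent.Helper44.IET Filter Topology

section

variable {ι : Type*} [Fintype ι] [Nonempty ι]

theorem Xs_lt_one (α : ℝ) (hα : Irrational α) (k : ℕ) : Xs α hα (k + 1) < 1 := by
  have h1 := Xs_lt α hα k
  have h2 : Xs α hα k ≤ 1 := (seq α hα k).le1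
  linarith

/-- Arbitrarily large denominators `q` for which a window of length `|q α - p|` avoids all marks
for about `φ² q / D` steps. -/
theorem free_windows (α : ℝ) (hα : Irrational α) (c : ι → ℝ) (ε : ℝ) (hε : 0 < ε) (K : ℕ) :
    ∃ k, K ≤ k ∧ ∃ M : ℕ, (ph ^ 2 / Fintype.card ι - ε) * Qs α hα (k + 1) ≤ M ∧
      ∃ z : ℝ, ∀ j : ι, ∀ h < M, Xs α hα (k + 1) < Int.fract (c j - h * α - z) := by
  classical
  obtain ⟨D, hDdef⟩ : ∃ D, Fintype.card ι = D := ⟨_, rfl⟩
  have hD1 : 1 ≤ D := by rw [← hDdef]; exact Fintype.card_pos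
  rw [hDdef]
  have hD : (0 : ℝ) < D := by exact_mod_cast hD1
  have hph2 : 0 < ph ^ 2 := by have := ph_pos; positivity
  set κ := max (ph ^ 2 / D - ε) (ph ^ 2 / (2 * D)) with hκ
  have hκ0 : 0 < κ := lt_of_lt_of_le (by positivity) (le_max_right _ _)
  have hκ1 : ph ^ 2 / D - ε ≤ κ := le_max_left _ _
  have hκ2 : D * κ < ph ^ 2 := by
    have h1 : κ < ph ^ 2 / D := by
      rw [hκ, max_lt_iff]
      refine ⟨by linarith, ?_⟩
      apply div_lt_div_of_pos_left hph2 hD
      linarith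
    rw [lt_div_iff₀ hD] at h1
    linarith
  set M : ℕ → ℕ := fun k => ⌈κ * Qs α hα (k + 1)⌉₊ with hM
  by_contra hcon
  push Not at hcon
  have hcov : ∀ k, K ≤ k → ∀ z : ℝ, ∃ j : ι, ∃ h < M k,
      Int.fract (c j - h * α - z) ≤ Xs α hα (k + 1) := by
    intro k hk z
    have h1 : (ph ^ 2 / D - ε) * Qs α hα (k + 1) ≤ M k := by
      refine le_trans ?_ (Nat.le_ceil _)
      exact mul_le_mul_of_nonneg_right hκ1 (Qs_nonneg α hα _)
    exact hcon k hk (M k) h1 z
  set p : ι × ℕ → ℝ := fun i => c i.1 - i.2 * α with hp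
  set I : ℕ → Finset (ι × ℕ) := fun m => Finset.univ ×ˢ Finset.range m with hI
  have hIcard : ∀ m, (I m).card = D * m := by
    intro m
    rw [hI, Finset.card_product, Finset.card_range, Finset.card_univ, hDdef]
  have hcov' : ∀ k, K ≤ k → ∀ z : ℝ, ∃ i ∈ I (M k), Int.fract (p i - z) ≤ Xs α hα (k + 1) := by
    intro k hk z
    obtain ⟨j, h, hh, hf⟩ := hcov k hk z
    exact ⟨(j, h), by simp [hI, hh], hf⟩
  have hne : ∀ k, (I (M k)).Nonempty := by
    intro k
    have h1 : 0 < M k := by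
      rw [hM]
      simp only [Nat.ceil_pos]
      exact mul_pos hκ0 (by linarith [Qs_one_le α hα k])
    obtain ⟨j⟩ := ‹Nonempty ι›
    exact ⟨(j, 0), by simp [hI, h1]⟩
  have hMle : ∀ k, (M k : ℝ) ≤ κ * Qs α hα (k + 1) + 1 := by
    intro k
    exact (Nat.ceil_lt_add_one (mul_nonneg hκ0.le (Qs_nonneg α hα _))).le
  have hMge : ∀ k, κ * Qs α hα (k + 1) ≤ M k := fun k => Nat.le_ceil _
  have hMmono : ∀ k, M k ≤ M (k + 1) := by
    intro k
    apply Nat.ceil_mono
    exact mul_le_mul_of_nonneg_left (Qs_mono α hα (k + 1)) hκ0.le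
  refine tail_contra α hα (D * κ) D hκ2 K ?_ ?_
  · intro k hk
    have h1 := cover_one p (I (M k)) (hne k) (Xs_pos α hα _).le (Xs_lt_one α hα k) (hcov' k hk)
    rw [hIcard] at h1
    have h2 := hMle k
    have h3 := Xs_pos α hα (k + 1)
    push_cast at h1
    have h4 : (D : ℝ) * M k * Xs α hα (k + 1) ≤ D * (κ * Qs α hα (k + 1) + 1) *
        Xs α hα (k + 1) := by
      apply mul_le_mul_of_nonneg_right _ h3.le
      exact mul_le_mul_of_nonneg_left h2 hD.le
    nlinarith
  · intro k hk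
    have h1 := cover_two p (I (M k)) (I (M (k + 1))) (hne k) (Xs_pos α hα (k + 2)).le
      (Xs_lt α hα (k + 1)).le (Xs_lt_one α hα k) (hcov' k hk) (hcov' (k + 1) (by omega))
    have hsub : I (M k) ⊆ I (M (k + 1)) := by
      rw [hI]
      exact Finset.product_subset_product (Finset.Subset.refl _)
        (Finset.range_subset_range.2 (hMmono k))
    rw [Finset.card_sdiff_of_subset hsub, hIcard, hIcard, Nat.cast_sub (by
      exact Nat.mul_le_mul le_rfl (hMmono k))] at h1
    push_cast at h1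
    have h2 := hMle k
    have h2' := hMge k
    have h3 := hMle (k + 1)
    have h4 := Xs_pos α hα (k + 2)
    have h5 := Xs_lt α hα (k + 1)
    have h5' : 0 < Xs α hα (k + 1) - Xs α hα (k + 2) := by linarith
    have h6 : (D : ℝ) * M k * Xs α hα (k + 2) ≤ D * (κ * Qs α hα (k + 1) + 1) *
        Xs α hα (k + 2) := by
      apply mul_le_mul_of_nonneg_right _ h4.le
      exact mul_le_mul_of_nonneg_left h2 hD.le
    have h7 : ((D : ℝ) * M (k + 1) - D * M k) * (Xs α hα (k + 1) - Xs α hα (k + 2)) ≤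
        (D * (κ * (Qs α hα (k + 2) - Qs α hα (k + 1)) + 1)) *
          (Xs α hα (k + 1) - Xs α hα (k + 2)) := by
      apply mul_le_mul_of_nonneg_right _ h5'.le
      have h8 : (M (k + 1) : ℝ) ≤ κ * Qs α hα (k + 2) + 1 := h3
      nlinarith
    nlinarith

/-- a point that stays at a larger forward distance -/
theorem fract_shift {y w z : ℝ} (h : w < Int.fract (y - z)) {z' : ℝ} (h1 : z ≤ z')
    (h2 : z' < z + (Int.fract (y - z) - w)) (hw : 0 ≤ w) : w < Int.fract (y - z') := by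
  have h3 : Int.fract (y - z') = Int.fract (y - z) - (z' - z) := by
    rw [Int.fract_eq_iff]
    have := Int.fract_lt_one (y - z)
    refine ⟨by linarith, by linarith, ⌊y - z⌋, ?_⟩
    have := Int.floor_add_fract (y - z)
    linarith
  rw [h3]; linarith

/-- the free window is an open condition -/
theorem free_nbhd (α : ℝ) (c : ι → ℝ) (w z : ℝ) (hw : 0 ≤ w) (M : ℕ)
    (h : ∀ j : ι, ∀ h < M, w < Int.fract (c j - h * α - z)) :
    ∃ η, 0 < η ∧ ∀ z', z ≤ z' → z' < z + η → ∀ j : ι, ∀ h < M, w < Int.fract (c j - h * α - z') := by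
  classical
  set I : Finset (ι × ℕ) := Finset.univ ×ˢ Finset.range M with hI
  rcases I.eq_empty_or_nonempty with he | hne
  · refine ⟨1, one_pos, ?_⟩
    intro z' _ _ j h hh
    exfalso
    have : (j, h) ∈ I := by simp [hI, hh]
    rw [he] at this
    simp at this
  · obtain ⟨i, hi, hmin⟩ := I.exists_min_image (fun i => Int.fract (c i.1 - i.2 * α - z)) hne
    have hi2 : i.2 < M := by
      have := (Finset.mem_product.1 hi).2
      exact Finset.mem_range.1 this
    have h1 := h i.1 i.2 hi2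
    refine ⟨Int.fract (c i.1 - i.2 * α - z) - w, by linarith, ?_⟩
    intro z' hz1 hz2 j t ht
    have h2 := hmin (j, t) (by simp [hI, ht])
    simp only at h2
    exact fract_shift (h j t ht) hz1 (by linarith) hw

/-- Runs along the orbit of `x0`. -/
theorem orbit_free (α : ℝ) (hα : Irrational α) (c : ι → ℝ) (w z : ℝ) (hw : 0 ≤ w) (hw1 : w < 1)
    (M : ℕ) (hfree : ∀ j : ι, ∀ h < M, w < Int.fract (c j - h * α - z)) (x0 : ℝ) (S : ℕ) :
    ∃ i : ℕ, S ≤ i ∧ ∀ h < M, ∀ j : ι, ∀ l : ℤ,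
      c j + l ∉ Set.Icc (x0 + ((i + h : ℕ) : ℝ) * α) (x0 + ((i + h : ℕ) : ℝ) * α + w) := by
  obtain ⟨η, hη, hop⟩ := free_nbhd α c w z hw M hfree
  obtain ⟨i, hi, l, hl1, hl2⟩ := orbit_dense α hα x0 z (z + η) (by linarith) S
  refine ⟨i, hi, ?_⟩
  intro h hh j l' hmem
  have h1 := hop (x0 + i * α + l) hl1.le hl2 j h hh
  obtain ⟨m1, m2⟩ := hmem
  push_cast at m1 m2
  have h2 : Int.fract (c j - h * α - (x0 + i * α + l)) = c j + l' - (x0 + (i + h) * α) := by
    rw [Int.fract_eq_iff]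
    refine ⟨by linarith, by linarith, -(l' + l), ?_⟩
    push_cast
    ring
  rw [h2] at h1
  linarith

end

end Pool.Helper56.Rot
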